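import Pool.Agent.H186.KS.Spec

/-!
# Project KS (helper186): `S_bridge`
-/

set_option autoImplicit false

open Finset

namespace Pool.Agent.H658.KS

open Pool.Agent.Y117.SG Pool.Agent.H186.KS

lemma mem_cl {n : ℕ} (I T : Finset (Fin n)) (i : Fin n) (b : Bool) :
    (i, b) ∈ cl I T ↔ i ∈ I ∧ decide (i ∈ T) = b := by
  unfold cl
  rw [mem_image]
  constructor
  · rintro ⟨j, hj, h⟩
    obtain ⟨rfl, h2⟩ := Prod.mk.inj h
    exact ⟨hj, h2⟩
  · rintro ⟨hi, h⟩
    exact ⟨i, hi, by rw [h]⟩

lemma cl_mem_board {n k : ℕ} {I T : Finset (Fin n)} (hI : #I = k) : cl I T ∈ board n k := by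
  unfold board
  rw [mem_filter]
  refine ⟨mem_univ _, ?_, ?_⟩
  · unfold cl
    rw [card_image_of_injective]
    · exact hI
    · intro i j h
      exact (Prod.mk.inj h).1
  · rintro ⟨i, b⟩ h ⟨j, b'⟩ h' hij
    rw [mem_cl] at h h'
    obtain rfl : i = j := hij
    rw [← h.2, ← h'.2]

theorem s_bridge : S_bridge := by
  classical
  intro n k F
  rw [sum_sigma']
  symm
  refine sum_nbij' (fun p => cl p.1 p.2)
    (fun c => ⟨c.image Prod.fst, univ.filter (fun i => (i, true) ∈ c)⟩) ?_ ?_ ?_ ?_ ?_
  · rintro ⟨I, T⟩ h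
    rw [mem_sigma, mem_powersetCard] at h
    exact cl_mem_board h.1.2
  · intro c hc
    unfold board at hc
    rw [mem_filter] at hc
    rw [mem_sigma, mem_powersetCard, mem_powerset]
    refine ⟨⟨subset_univ _, ?_⟩, ?_⟩
    · rw [card_image_of_injOn]
      · exact hc.2.1
      · intro l hl l' hl' h
        exact hc.2.2 l hl l' hl' h
    · intro i hi
      rw [mem_filter] at hi
      exact mem_image.2 ⟨(i, true), hi.2, rfl⟩
  · rintro ⟨I, T⟩ h
    rw [mem_sigma, mem_powersetCard, mem_powerset] at h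
    have e1 : (cl I T).image Prod.fst = I := by
      ext i
      rw [mem_image]
      constructor
      · rintro ⟨⟨j, b⟩, hj, rfl⟩
        exact ((mem_cl I T j b).1 hj).1
      · intro hi
        exact ⟨(i, decide (i ∈ T)), (mem_cl I T i _).2 ⟨hi, rfl⟩, rfl⟩
    have e2 : univ.filter (fun i => (i, true) ∈ cl I T) = T := by
      ext i
      rw [mem_filter, mem_cl, decide_eq_true_eq]
      constructor
      · rintro ⟨-, -, h⟩; exact h
      · intro hi; exact ⟨mem_univ _, h.2 hi, hi⟩
    exact Sigma.ext e1 (heq_of_eq e2)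
  · intro c hc
    unfold board at hc
    rw [mem_filter] at hc
    ext ⟨i, b⟩
    change (i, b) ∈ cl (c.image Prod.fst) (univ.filter (fun i => (i, true) ∈ c)) ↔ _
    rw [mem_cl, mem_image]
    constructor
    · rintro ⟨⟨⟨j, b'⟩, hj, rfl⟩, h⟩
      cases b with
      | true =>
        rw [decide_eq_true_eq, mem_filter] at h
        exact h.2
      | false =>
        rw [decide_eq_false_iff_not, mem_filter] at h
        cases b' with
        | true => exact absurd ⟨mem_univ _, hj⟩ h
        | false => exact hj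
    · intro h
      refine ⟨⟨(i, b), h, rfl⟩, ?_⟩
      cases b with
      | true =>
        rw [decide_eq_true_eq, mem_filter]
        exact ⟨mem_univ _, h⟩
      | false =>
        rw [decide_eq_false_iff_not, mem_filter]
        rintro ⟨-, h'⟩
        have := hc.2.2 _ h _ h' rfl
        exact absurd (Prod.mk.inj this).2 (by decide)
  · rintro ⟨I, T⟩ _
    rfl

end Pool.Agent.H658.KS
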